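import Pool.Agent.W516.K3.Defs3

/-!
# Multilinear forms on the sum of a trivial object and `T`
-/

set_option autoImplicit false
set_option linter.unusedSectionVars false

namespace Pool.Agent.W417.DK

open Module Pool.Agent.W516.K3

section

variable {k T : Type} [Field k] [AddCommGroup T] [Module k T] {c : ℕ} {κ : Type} [Fintype κ]

/-- coordinates of the variables in `A` times a form in the other variables -/
def Chi (A : Finset κ) (j : κ → Fin c) (ψ : MultilinearMap k (fun _ : {l : κ // l ∉ A} => T) k) :
    MultilinearMap k (fun _ : κ => (Fin c → k) × T) k where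
  toFun v := (∏ l ∈ A, (v l).1 (j l)) * ψ (fun l => (v l.1).2)
  map_update_add' := by
    intro inst m i x y
    classical
    by_cases hi : i ∈ A
    · have h1 : ∀ z : (Fin c → k) × T,
          (fun l : {l : κ // l ∉ A} => (Function.update m i z l.1).2) = fun l => (m l.1).2 := by
        intro z
        funext l
        rw [Function.update_of_ne (fun h : l.1 = i => l.2 (by rw [h]; exact hi))]
      have h2 : ∀ z : (Fin c → k) × T, ∏ l ∈ A, (Function.update m i z l).1 (j l) =
          z.1 (j i) * ∏ l ∈ A.erase i, (m l).1 (j l) := by
        intro z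
        rw [← Finset.mul_prod_erase _ _ hi, Function.update_self]
        congr 1
        refine Finset.prod_congr rfl fun l hl => ?_
        rw [Function.update_of_ne (Finset.ne_of_mem_erase hl)]
      rw [h1, h1, h1, h2, h2, h2]
      change (x.1 (j i) + y.1 (j i)) * _ * _ = _
      ring
    · have h1 : ∀ z : (Fin c → k) × T,
          (fun l : {l : κ // l ∉ A} => (Function.update m i z l.1).2) =
            Function.update (fun l : {l : κ // l ∉ A} => (m l.1).2) ⟨i, hi⟩ z.2 := by
        intro z
        funext l
        by_cases hl : l.1 = i
        · have hl' : l = ⟨i, hi⟩ := Subtype.ext hl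
          subst hl'
          rw [Function.update_self, Function.update_self]
        · rw [Function.update_of_ne hl, Function.update_of_ne (fun h => hl (congrArg Subtype.val h))]
      have h2 : ∀ z : (Fin c → k) × T, ∏ l ∈ A, (Function.update m i z l).1 (j l) =
          ∏ l ∈ A, (m l).1 (j l) := by
        intro z
        refine Finset.prod_congr rfl fun l hl => ?_
        rw [Function.update_of_ne (fun h : l = i => hi (by rw [← h]; exact hl))]
      rw [h1, h1, h1, h2, h2, h2]
      change _ * ψ (Function.update _ _ (x.2 + y.2)) = _
      rw [ψ.map_update_add, mul_add]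
  map_update_smul' := by
    intro inst m i a x
    classical
    by_cases hi : i ∈ A
    · have h1 : ∀ z : (Fin c → k) × T,
          (fun l : {l : κ // l ∉ A} => (Function.update m i z l.1).2) = fun l => (m l.1).2 := by
        intro z
        funext l
        rw [Function.update_of_ne (fun h : l.1 = i => l.2 (by rw [h]; exact hi))]
      have h2 : ∀ z : (Fin c → k) × T, ∏ l ∈ A, (Function.update m i z l).1 (j l) =
          z.1 (j i) * ∏ l ∈ A.erase i, (m l).1 (j l) := by
        intro z
        rw [← Finset.mul_prod_erase _ _ hi, Function.update_self]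
        congr 1
        refine Finset.prod_congr rfl fun l hl => ?_
        rw [Function.update_of_ne (Finset.ne_of_mem_erase hl)]
      rw [h1, h1, h2, h2]
      change (a * x.1 (j i)) * _ * _ = a * _
      ring
    · have h1 : ∀ z : (Fin c → k) × T,
          (fun l : {l : κ // l ∉ A} => (Function.update m i z l.1).2) =
            Function.update (fun l : {l : κ // l ∉ A} => (m l.1).2) ⟨i, hi⟩ z.2 := by
        intro z
        funext l
        by_cases hl : l.1 = i
        · have hl' : l = ⟨i, hi⟩ := Subtype.ext hl
          subst hl'
          rw [Function.update_self, Function.update_self]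
        · rw [Function.update_of_ne hl, Function.update_of_ne (fun h => hl (congrArg Subtype.val h))]
      have h2 : ∀ z : (Fin c → k) × T, ∏ l ∈ A, (Function.update m i z l).1 (j l) =
          ∏ l ∈ A, (m l).1 (j l) := by
        intro z
        refine Finset.prod_congr rfl fun l hl => ?_
        rw [Function.update_of_ne (fun h : l = i => hi (by rw [← h]; exact hl))]
      rw [h1, h1, h2, h2]
      change _ * ψ (Function.update _ _ (a • x.2)) = _
      rw [ψ.map_update_smul, smul_eq_mul, smul_eq_mul]
      ring

theorem Chi_apply (A : Finset κ) (j : κ → Fin c)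
    (ψ : MultilinearMap k (fun _ : {l : κ // l ∉ A} => T) k) (v : κ → (Fin c → k) × T) :
    Chi A j ψ v = (∏ l ∈ A, (v l).1 (j l)) * ψ (fun l => (v l.1).2) := rfl

theorem Chi_mem [DecidableEq κ] (b : T →ₗ[k] T →ₗ[k] k) (A : Finset κ) (j : κ → Fin c)
    (ψ : MultilinearMap k (fun _ : {l : κ // l ∉ A} => T) k)
    (hψ : ψ ∈ Submodule.span k {ψ' | PairProd b ψ'}) :
    Chi A j ψ ∈ Submodule.span k {φ' | IsMonomial (c := c) (κ := κ) b φ'} := by
  induction hψ using Submodule.span_induction with
  | mem ψ h =>
    obtain ⟨m, e, he⟩ := h
    refine Submodule.subset_span ⟨m, A, e, j, fun v => ?_⟩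
    rw [Chi_apply, he, mul_comm]
  | zero =>
    have : Chi A j (0 : MultilinearMap k (fun _ : {l : κ // l ∉ A} => T) k) = 0 := by
      refine MultilinearMap.ext fun v => ?_
      rw [Chi_apply]
      exact mul_zero _
    rw [this]
    exact Submodule.zero_mem _
  | add ψ ψ' _ _ h h' =>
    have : Chi A j (ψ + ψ') = Chi A j ψ + Chi A j ψ' := by
      refine MultilinearMap.ext fun v => ?_
      rw [Chi_apply]
      exact mul_add _ _ _
    rw [this]
    exact Submodule.add_mem _ h h'
  | smul a ψ _ h =>
    have : Chi A j (a • ψ) = a • Chi A j ψ := by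
      refine MultilinearMap.ext fun v => ?_
      rw [Chi_apply]
      exact mul_left_comm _ _ _
    rw [this]
    exact Submodule.smul_mem _ _ h

end

theorem T_TOT : Pool.Agent.W516.K3.S_PART → Pool.Agent.W516.K3.S_TOT := by
  intro hpart k T _ _ _ _ _ b c κ _ _ φ hc hφ
  classical
  choose ψ hψ using hpart k T c κ φ
  let i0 : Fin c := ⟨0, hc⟩
  let AA : (κ → Option (Fin c)) → Finset κ := fun r => Finset.univ.filter fun l => r l ≠ none
  let jj : (κ → Option (Fin c)) → κ → Fin c := fun r l => (r l).getD i0
  have hsum : φ = ∑ r : κ → Option (Fin c), Chi (AA r) (jj r) (ψ (AA r) (jj r)) := by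
    refine MultilinearMap.ext fun v => ?_
    rw [_root_.sum_apply]
    let g : κ → Option (Fin c) → (Fin c → k) × T := fun l o =>
      o.elim (0, (v l).2) (fun i => (v l).1 i • (Pi.single i 1, 0))
    have hv : v = fun l => ∑ o, g l o := by
      funext l
      rw [Fintype.sum_option]
      refine Prod.ext ?_ ?_
      · funext i
        have h1 : (∑ i : Fin c, g l (some i)).1 = (v l).1 := by
          rw [Prod.fst_sum]
          funext i
          rw [Finset.sum_apply, Finset.sum_eq_single i]
          · change (v l).1 i * (Pi.single i 1 : Fin c → k) i = _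
            rw [Pi.single_eq_same, mul_one]
          · intro i' _ hi'
            change (v l).1 i' * (Pi.single i' 1 : Fin c → k) i = 0
            rw [Pi.single_eq_of_ne (Ne.symm hi'), mul_zero]
          · intro h
            exact absurd (Finset.mem_univ _) h
        change (v l).1 i = (0 : Fin c → k) i + (∑ i : Fin c, g l (some i)).1 i
        rw [h1]
        simp
      · have h1 : (∑ i : Fin c, g l (some i)).2 = 0 := by
          rw [Prod.snd_sum]
          refine Finset.sum_eq_zero fun i _ => ?_
          change (v l).1 i • (0 : T) = 0
          rw [smul_zero]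
        change (v l).2 = (v l).2 + (∑ i : Fin c, g l (some i)).2
        rw [h1, add_zero]
    conv_lhs => rw [hv]
    rw [MultilinearMap.map_sum]
    refine Finset.sum_congr rfl fun r _ => ?_
    rw [Chi_apply, hψ (AA r) (jj r)]
    have h2 : (fun l => g l (r l)) = fun l => (if l ∈ AA r then (v l).1 (jj r l) else 1) •
        mixed (AA r) (jj r) (fun l => (v l.1).2) l := by
      funext l
      rcases hr : r l with _ | i
      · have hl : l ∉ AA r := by
          intro h
          exact (Finset.mem_filter.1 h).2 hr
        rw [if_neg hl, one_smul]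
        unfold mixed
        rw [dif_neg hl]
        rfl
      · have hl : l ∈ AA r := Finset.mem_filter.2 ⟨Finset.mem_univ _, by rw [hr]; simp⟩
        have hj : jj r l = i := by
          change (r l).getD i0 = i
          rw [hr]
          rfl
        rw [if_pos hl, hj]
        unfold mixed
        rw [dif_pos hl, hj]
        rfl
    rw [h2, MultilinearMap.map_smul_univ, Finset.prod_ite_mem, Finset.univ_inter, smul_eq_mul]
  rw [hsum]
  exact Submodule.sum_mem _ fun r _ => Chi_mem b _ _ _ (hφ _ _ _ (hψ _ _))

end Pool.Agent.W417.DK
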